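import Pool.Agent.N65.GP.Defs

set_option autoImplicit false

/-!
# A formula of Jensen type
-/

namespace Pool.Agent.N564.GP

open Complex Metric Filter Topology Pool.Agent.N65.GP

/-- points of the circle -/
noncomputable def ee (r t : ℝ) : ℂ := r * exp (2 * Real.pi * t * I)

theorem ee_ne {r : ℝ} (hr : 0 < r) (t : ℝ) : ee r t ≠ 0 :=
  mul_ne_zero (by exact_mod_cast hr.ne') (exp_ne_zero _)

theorem norm_ee {r : ℝ} (hr : 0 < r) (t : ℝ) : ‖ee r t‖ = r := by
  have h1 : (2 * Real.pi * t * I : ℂ) = ((2 * Real.pi * t : ℝ) : ℂ) * I := by push_cast; ring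
  rw [ee, norm_mul, h1, norm_exp_ofReal_mul_I, mul_one, norm_real, Real.norm_of_nonneg hr.le]

theorem continuous_ee (r : ℝ) : Continuous (ee r) := by
  unfold ee
  fun_prop

theorem inv_ee {r : ℝ} (t : ℝ) : (ee r t)⁻¹ = ee r⁻¹ (1 - t) := by
  unfold ee
  rw [mul_inv, ← exp_neg]
  have h1 : exp (2 * Real.pi * ((1 - t : ℝ) : ℂ) * I) = exp (-(2 * Real.pi * t * I)) := by
    have h2 : (2 * Real.pi * ((1 - t : ℝ) : ℂ) * I : ℂ) =
        -(2 * Real.pi * t * I) + 2 * Real.pi * I := by push_cast; ring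
    rw [h2, exp_add, exp_two_pi_mul_I, mul_one]
  rw [h1]
  push_cast
  rfl

/-- circle integrals -/
theorem circ (Φ : ℂ → ℂ) (r : ℝ) :
    ∮ z in C(0, r), Φ z = ∫ t in (0 : ℝ)..1, Φ (ee r t) * (2 * Real.pi * I * ee r t) := by
  have h1 := intervalIntegral.smul_integral_comp_mul_left (a := 0) (b := 1)
    (fun θ : ℝ => deriv (circleMap 0 r) θ • Φ (circleMap 0 r θ)) (2 * Real.pi)
  rw [mul_zero, mul_one] at h1
  rw [circleIntegral, ← h1, ← intervalIntegral.integral_smul]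
  congr 1
  funext t
  rw [deriv_circleMap]
  have h2 : circleMap 0 r (2 * Real.pi * t) = ee r t := by
    simp [circleMap, ee]
  rw [h2, smul_eq_mul, real_smul]
  push_cast
  ring

theorem log_mul_of_re {x y : ℂ} (hx : 0 < x.re) (hy : 0 < y.re) :
    Complex.log (x * y) = Complex.log x + Complex.log y := by
  have hx0 : x ≠ 0 := by rintro rfl; simp at hx
  have hy0 : y ≠ 0 := by rintro rfl; simp at hy
  have h1 := (abs_lt.mp (abs_arg_lt_pi_div_two_iff.mpr (Or.inl hx)))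
  have h2 := (abs_lt.mp (abs_arg_lt_pi_div_two_iff.mpr (Or.inl hy)))
  rw [log_mul_eq_add_log_iff hx0 hy0]
  constructor <;> linarith [h1.1, h1.2, h2.1, h2.2]

theorem re_pos_of_norm_lt {w : ℂ} (h : ‖w‖ < 1) : 0 < (1 - w).re := by
  rw [sub_re, one_re]
  linarith [re_le_norm w]

/-- one branch -/
theorem one (Y X : ℂ → ℂ) (α : ℂ) (R ρ : ℝ) (hR : 0 < R) (hρ : R < ρ) (hα : α ≠ 0)
    (hY : DifferentiableOn ℂ Y {c | R < ‖c‖})
    (hlimY : Tendsto (fun c => Y c / c) (Bornology.cobounded ℂ) (𝓝 α))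
    (hlimX : Tendsto (fun m => X m / m) (Bornology.cobounded ℂ) (𝓝 α⁻¹))
    (hYX : ∀ m, R < ‖m‖ → R < ‖X m‖ → Y (X m) = m) :
    ∃ R' : ℝ, ρ ≤ R' ∧ ∀ m c : ℂ, R' < ‖m‖ → R' < ‖c‖ → c ≠ X m → Y c ≠ m →
      Real.log ‖Y c - m‖ - Real.log ‖X m - c‖ = Real.log ‖α‖ - (1 / (2 * Real.pi)) *
        (∫ t in (0 : ℝ)..1, ker m c (ee ρ t) (Y (ee ρ t)) * (2 * Real.pi * I * ee ρ t)).im := by
  have hρ0 : 0 < ρ := hR.trans hρ
  set r : ℝ := ρ⁻¹ with hrdef
  have hr0 : 0 < r := inv_pos.mpr hρ0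
  have hrR : r < R⁻¹ := (inv_lt_inv₀ hρ0 hR).mpr hρ
  set h : ℂ → ℂ := Function.update (fun v => v * Y v⁻¹) 0 α with hhdef
  have hh0 : h 0 = α := Function.update_self _ _ _
  have hhv : ∀ v, v ≠ 0 → h v = v * Y v⁻¹ := fun v hv => Function.update_of_ne hv _ _
  have hinv : ∀ v ∈ ball (0 : ℂ) R⁻¹, v ≠ 0 → R < ‖v⁻¹‖ := by
    intro v hv hv0
    rw [mem_ball_zero_iff] at hv
    rw [norm_inv]
    rwa [lt_inv_comm₀ hR (norm_pos_iff.mpr hv0)]
  have hopen : IsOpen {c : ℂ | R < ‖c‖} := isOpen_lt continuous_const continuous_norm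
  have hhd : DifferentiableOn ℂ h (ball 0 R⁻¹) := by
    rw [← differentiableOn_compl_singleton_and_continuousAt_iff (c := 0)
      (isOpen_ball.mem_nhds (mem_ball_self (inv_pos.mpr hR)))]
    constructor
    · intro v hv
      have hv0 : v ≠ 0 := hv.2
      have h1 : DifferentiableAt ℂ (fun v => v * Y v⁻¹) v := by
        apply differentiableAt_id.mul
        apply DifferentiableAt.comp v (g := Y) (f := fun v => v⁻¹)
        · exact hY.differentiableAt (hopen.mem_nhds (hinv v hv.1 hv0))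
        · exact differentiableAt_inv hv0
      apply DifferentiableAt.differentiableWithinAt
      refine h1.congr_of_eventuallyEq ?_
      filter_upwards [isOpen_ne.mem_nhds hv0] with w hw
      exact hhv w hw
    · rw [hhdef, continuousAt_update_same]
      have h1 : Tendsto (fun v : ℂ => v⁻¹) (𝓝[≠] 0) (Bornology.cobounded ℂ) :=
        tendsto_inv₀_nhdsNE_zero
      refine (hlimY.comp h1).congr fun v => ?_
      simp only [Function.comp, div_eq_mul_inv, inv_inv]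
      ring
  have hsub : closedBall (0 : ℂ) r ⊆ ball 0 R⁻¹ := closedBall_subset_ball hrR
  obtain ⟨L, hL⟩ : ∃ L : ℝ, ∀ v ∈ closedBall (0 : ℂ) r, ‖deriv h v‖ ≤ L :=
    (isCompact_closedBall 0 r).exists_bound_of_continuousOn
      ((hhd.deriv isOpen_ball).continuousOn.mono hsub)
  -- large `m`
  have hXlarge : ∀ᶠ m in Bornology.cobounded ℂ, ρ < ‖X m‖ := by
    have h1 : Tendsto (fun m => ‖X m / m‖) (Bornology.cobounded ℂ) (𝓝 ‖α⁻¹‖) := hlimX.norm
    have hαp : 0 < ‖α⁻¹‖ := norm_pos_iff.mpr (inv_ne_zero hα)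
    have h2 : ∀ᶠ m in Bornology.cobounded ℂ, ‖α⁻¹‖ / 2 < ‖X m / m‖ :=
      h1.eventually (lt_mem_nhds (by linarith))
    have h3 : ∀ᶠ m in Bornology.cobounded ℂ, 2 * (ρ + 1) / ‖α⁻¹‖ ≤ ‖(m : ℂ)‖ :=
      tendsto_norm_cobounded_atTop.eventually_ge_atTop _
    filter_upwards [h2, h3] with m h4 h5
    have hm0 : 0 < ‖m‖ := lt_of_lt_of_le (by positivity) h5
    rw [norm_div, lt_div_iff₀ hm0] at h4
    rw [div_le_iff₀ hαp] at h5
    nlinarith
  obtain ⟨R₁, -, hR₁⟩ := hasBasis_cobounded_norm.eventually_iff.mp hXlarge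
  refine ⟨max ρ (max R₁ L), le_max_left _ _, fun m c hm hc hcX hYc => ?_⟩
  have hmρ : ρ < ‖m‖ := (le_max_left _ _).trans_lt hm
  have hcρ : ρ < ‖c‖ := (le_max_left _ _).trans_lt hc
  have hmL : L < ‖m‖ := ((le_max_right _ _).trans (le_max_right _ _)).trans_lt hm
  have hXρ : ρ < ‖X m‖ :=
    hR₁ (show R₁ ≤ ‖m‖ from (((le_max_left _ _).trans (le_max_right _ _)).trans_lt hm).le)
  set x : ℂ := X m with hx
  have hYx : Y x = m := hYX m (hρ.trans hmρ) (hρ.trans hXρ)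
  have hx0 : x ≠ 0 := norm_pos_iff.mp (hρ0.trans hXρ)
  have hm0 : m ≠ 0 := norm_pos_iff.mp (hρ0.trans hmρ)
  have hc0 : c ≠ 0 := norm_pos_iff.mp (hρ0.trans hcρ)
  have hvx : ‖x⁻¹‖ < r := by
    rw [norm_inv]
    exact (inv_lt_inv₀ (hρ0.trans hXρ) hρ0).mpr hXρ
  have hvc : ‖c⁻¹‖ < r := by
    rw [norm_inv]
    exact (inv_lt_inv₀ (hρ0.trans hcρ) hρ0).mpr hcρ
  have hvx' : x⁻¹ ∈ closedBall (0 : ℂ) r := by
    rw [mem_closedBall_zero_iff]; exact hvx.le
  -- the function `q`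
  set q : ℂ → ℂ := fun v => 1 - dslope h x⁻¹ v / m with hq
  have hqd : DifferentiableOn ℂ q (ball 0 R⁻¹) := by
    have h1 : DifferentiableOn ℂ (dslope h x⁻¹) (ball 0 R⁻¹) :=
      (differentiableOn_dslope (isOpen_ball.mem_nhds (hsub hvx'))).mpr hhd
    exact (differentiableOn_const 1).sub (h1.div_const m)
  have hlip : ∀ v ∈ closedBall (0 : ℂ) r, ‖dslope h x⁻¹ v‖ ≤ L := by
    intro v hv
    by_cases hvv : v = x⁻¹
    · rw [hvv, dslope_same]
      exact hL _ hvx'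
    · rw [dslope_of_ne _ hvv, slope_def_field, norm_div,
        div_le_iff₀ (norm_pos_iff.mpr (sub_ne_zero.mpr hvv))]
      exact (convex_closedBall (0 : ℂ) r).norm_image_sub_le_of_norm_deriv_le
        (fun w hw => hhd.differentiableAt (isOpen_ball.mem_nhds (hsub hw))) hL hvx' hv
  have hqre : ∀ v ∈ closedBall (0 : ℂ) r, 0 < (q v).re := by
    intro v hv
    apply re_pos_of_norm_lt
    rw [norm_div, div_lt_one (hρ0.trans hmρ)]
    exact (hlip v hv).trans_lt hmL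
  have hqid : ∀ v, q v * (v - x⁻¹) = v - h v / m := by
    intro v
    have h1 := sub_smul_dslope h x⁻¹ v
    rw [smul_eq_mul, hhv x⁻¹ (inv_ne_zero hx0), inv_inv, hYx] at h1
    have h2 : q v * (v - x⁻¹) = (v - x⁻¹) - (v - x⁻¹) * dslope h x⁻¹ v / m := by
      rw [hq]; ring
    rw [h2, h1, sub_div, mul_div_cancel_right₀ _ hm0]
    ring
  -- its logarithm
  set ψ : ℂ → ℂ := fun v => Complex.log (q v) with hψ
  have hψa : ∀ v ∈ closedBall (0 : ℂ) r, DifferentiableAt ℂ ψ v := fun v hv =>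
    (hqd.differentiableAt (isOpen_ball.mem_nhds (hsub hv))).clog
      (mem_slitPlane_iff.mpr (Or.inl (hqre v hv)))
  have hψd : DifferentiableOn ℂ ψ (closedBall 0 r) := fun v hv =>
    (hψa v hv).differentiableWithinAt
  -- the logarithm on the circle
  have hlog : ∀ z : ℂ, ‖z‖ = ρ →
      Complex.log (1 - Y z / m) = ψ z⁻¹ + Complex.log (1 - z / x) := by
    intro z hz
    have hz0 : z ≠ 0 := norm_pos_iff.mp (by rw [hz]; exact hρ0)
    have hzv : z⁻¹ ∈ closedBall (0 : ℂ) r := by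
      rw [mem_closedBall_zero_iff, norm_inv, hz]
    have h1 : 1 - Y z / m = q z⁻¹ * (1 - z / x) := by
      have h2 := hqid z⁻¹
      rw [hhv z⁻¹ (inv_ne_zero hz0), inv_inv] at h2
      have h3 : q z⁻¹ * (1 - z / x) = (q z⁻¹ * (z⁻¹ - x⁻¹)) * z := by
        field_simp
      rw [h3, h2]
      field_simp
    rw [h1, log_mul_of_re (hqre _ hzv)]
    apply re_pos_of_norm_lt
    rw [norm_div, div_lt_one (hρ0.trans hXρ), hz]
    exact hXρ
  -- the interior function
  set f₁ : ℂ → ℂ := fun z => Complex.log (1 - z / x) / (z - c) with hf₁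
  have hf₁d : ∀ z ∈ closedBall (0 : ℂ) ρ, DifferentiableAt ℂ f₁ z := by
    intro z hz
    rw [mem_closedBall_zero_iff] at hz
    have h1 : z - c ≠ 0 := by
      intro h2
      rw [sub_eq_zero.mp h2] at hz
      linarith
    have h2 : 0 < (1 - z / x).re := by
      apply re_pos_of_norm_lt
      rw [norm_div, div_lt_one (hρ0.trans hXρ)]
      exact hz.trans_lt hXρ
    have h3 : DifferentiableAt ℂ (fun z => 1 - z / x) z := by fun_prop
    exact (h3.clog (mem_slitPlane_iff.mpr (Or.inl h2))).div (by fun_prop) h1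
  have hint₁ : ∮ z in C(0, ρ), f₁ z = 0 :=
    circleIntegral_eq_zero_of_differentiable_on_off_countable hρ0.le Set.countable_empty
      (fun z hz => (hf₁d z hz).continuousAt.continuousWithinAt)
      (fun z hz => hf₁d z (ball_subset_closedBall hz.1))
  -- the exterior function
  set Φ : ℂ → ℂ := fun v => (v - 0)⁻¹ * ψ v - (v - c⁻¹)⁻¹ * ψ v with hΦ
  have hsph : ∀ v ∈ sphere (0 : ℂ) r, v ≠ 0 ∧ v - c⁻¹ ≠ 0 := by
    intro v hv
    rw [mem_sphere_zero_iff_norm] at hv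
    refine ⟨norm_pos_iff.mp (by rw [hv]; exact hr0), fun h2 => ?_⟩
    rw [sub_eq_zero.mp h2] at hv
    linarith
  have hc₁ : ∀ v ∈ sphere (0 : ℂ) r, ContinuousAt (fun v => (v - 0)⁻¹ * ψ v) v := by
    intro v hv
    have h1 := (hsph v hv).1
    have h2 := (hψa v (sphere_subset_closedBall hv)).continuousAt
    exact (ContinuousAt.inv₀ (by fun_prop) (by rwa [sub_zero])).mul h2
  have hc₂ : ∀ v ∈ sphere (0 : ℂ) r, ContinuousAt (fun v => (v - c⁻¹)⁻¹ * ψ v) v := by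
    intro v hv
    have h1 := (hsph v hv).2
    have h2 := (hψa v (sphere_subset_closedBall hv)).continuousAt
    have h3 : ContinuousAt (fun v : ℂ => v - c⁻¹) v := by fun_prop
    exact (h3.inv₀ h1).mul h2
  have hintΦ : ∮ v in C(0, r), Φ v = 2 * Real.pi * I * (ψ 0 - ψ c⁻¹) := by
    have h1 := hψd.circleIntegral_sub_inv_smul (w := 0) (mem_ball_self hr0)
    have h2 := hψd.circleIntegral_sub_inv_smul (w := c⁻¹) (by
      rw [mem_ball_zero_iff]; exact hvc)
    have h3 := circleIntegral.integral_sub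
      (ContinuousOn.circleIntegrable hr0.le
        (fun v hv => (hc₁ v hv).continuousWithinAt : ContinuousOn _ (sphere (0 : ℂ) r)))
      (ContinuousOn.circleIntegrable hr0.le
        (fun v hv => (hc₂ v hv).continuousWithinAt : ContinuousOn _ (sphere (0 : ℂ) r)))
    simp only [smul_eq_mul] at h1 h2
    rw [hΦ, h3, h1, h2]
    ring
  -- the integral
  have hcA : Continuous fun t : ℝ => f₁ (ee ρ t) * (2 * Real.pi * I * ee ρ t) := by
    rw [continuous_iff_continuousAt]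
    intro t
    have h1 : ContinuousAt (fun t => f₁ (ee ρ t)) t :=
      ContinuousAt.comp (g := f₁) (hf₁d _ (by
        rw [mem_closedBall_zero_iff, norm_ee hρ0])).continuousAt (continuous_ee ρ).continuousAt
    exact h1.mul (((continuous_ee ρ).const_mul _).continuousAt)
  have hcW : Continuous fun t : ℝ => Φ (ee r t) * (2 * Real.pi * I * ee r t) := by
    rw [continuous_iff_continuousAt]
    intro t
    have h0 : ee r t ∈ sphere (0 : ℂ) r := by
      rw [mem_sphere_zero_iff_norm, norm_ee hr0]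
    have h1 : ContinuousAt (fun t => Φ (ee r t)) t :=
      ContinuousAt.comp (g := Φ) ((hc₁ _ h0).sub (hc₂ _ h0)) (continuous_ee r).continuousAt
    exact h1.mul (((continuous_ee r).const_mul _).continuousAt)
  have hmain : ∫ t in (0 : ℝ)..1, ker m c (ee ρ t) (Y (ee ρ t)) * (2 * Real.pi * I * ee ρ t) =
      2 * Real.pi * I * (ψ 0 - ψ c⁻¹) := by
    have h1 : ∀ t : ℝ, ker m c (ee ρ t) (Y (ee ρ t)) * (2 * Real.pi * I * ee ρ t) =
        f₁ (ee ρ t) * (2 * Real.pi * I * ee ρ t) +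
        (fun s : ℝ => Φ (ee r s) * (2 * Real.pi * I * ee r s)) (1 - t) := by
      intro t
      simp only [Pool.Agent.N65.GP.ker]
      rw [hlog _ (norm_ee hρ0 t), ← inv_ee]
      have hz0 : ee ρ t ≠ 0 := ee_ne hρ0 t
      have hzc : ee ρ t - c ≠ 0 := by
        intro h2
        have h3 := norm_ee hρ0 t
        rw [sub_eq_zero.mp h2] at h3
        linarith
      simp only [hf₁, hΦ]
      set z := ee ρ t
      have h5 : z⁻¹ - c⁻¹ ≠ 0 := by
        intro h6
        exact hzc (sub_eq_zero.mpr (inv_injective (sub_eq_zero.mp h6)))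
      have h6 : (z⁻¹ - c⁻¹)⁻¹ = - (z * c) / (z - c) := by
        rw [eq_div_iff hzc, inv_mul_eq_iff_eq_mul₀ h5]
        field_simp
        ring
      rw [sub_zero, inv_inv, h6]
      field_simp
      ring
    have hcW' : Continuous fun t : ℝ =>
        (fun s : ℝ => Φ (ee r s) * (2 * Real.pi * I * ee r s)) (1 - t) :=
      hcW.comp (continuous_const.sub continuous_id)
    rw [intervalIntegral.integral_congr (fun t _ => h1 t),
      intervalIntegral.integral_add (hcA.intervalIntegrable _ _) (hcW'.intervalIntegrable _ _),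
      ← circ f₁ ρ, hint₁, zero_add,
      intervalIntegral.integral_comp_sub_left
        (fun s : ℝ => Φ (ee r s) * (2 * Real.pi * I * ee r s)) 1, sub_self, sub_zero,
      ← circ Φ r, hintΦ]
  rw [hmain]
  have him : (2 * Real.pi * I * (ψ 0 - ψ c⁻¹) : ℂ).im =
      2 * Real.pi * (Real.log ‖q 0‖ - Real.log ‖q c⁻¹‖) := by
    have h1 : (2 * Real.pi * I * (ψ 0 - ψ c⁻¹) : ℂ) =
        ((2 * Real.pi : ℝ) : ℂ) * (I * (ψ 0 - ψ c⁻¹)) := by push_cast; ring
    rw [h1, im_ofReal_mul, I_mul_im, sub_re]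
    simp only [hψ, log_re]
  have hq0 : ‖q 0‖ = ‖α‖ * ‖x‖ / ‖m‖ := by
    have h1 := hqid 0
    rw [hh0, zero_sub, zero_sub] at h1
    have h2 : q 0 = α * x / m := by
      field_simp at h1 ⊢
      linear_combination -h1
    rw [h2, norm_div, norm_mul]
  have hqc : ‖q c⁻¹‖ = ‖Y c - m‖ * ‖x‖ / (‖m‖ * ‖x - c‖) := by
    have h1 := hqid c⁻¹
    rw [hhv _ (inv_ne_zero hc0), inv_inv] at h1
    have hxc : x - c ≠ 0 := sub_ne_zero.mpr (Ne.symm hcX)
    have h2 : q c⁻¹ = (m - Y c) * x / (m * (x - c)) := by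
      rw [eq_div_iff (mul_ne_zero hm0 hxc)]
      have h3 : c⁻¹ - x⁻¹ = (x - c) / (c * x) := by field_simp
      rw [h3] at h1
      have h4 : q c⁻¹ * (m * (x - c)) = (q c⁻¹ * ((x - c) / (c * x))) * (c * x * m) := by
        field_simp
      rw [h4, h1]
      field_simp
    rw [h2, norm_div, norm_mul, norm_mul, norm_sub_rev m]
  have hpi : (2 * Real.pi : ℝ) ≠ 0 := by positivity
  rw [him, hq0, hqc, ← mul_assoc, one_div, inv_mul_cancel₀ hpi, one_mul]
  have n1 : ‖α‖ ≠ 0 := norm_ne_zero_iff.mpr hα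
  have n2 : ‖x‖ ≠ 0 := norm_ne_zero_iff.mpr hx0
  have n3 : ‖m‖ ≠ 0 := norm_ne_zero_iff.mpr hm0
  have n4 : ‖Y c - m‖ ≠ 0 := norm_ne_zero_iff.mpr (sub_ne_zero.mpr hYc)
  have n5 : ‖x - c‖ ≠ 0 := norm_ne_zero_iff.mpr (sub_ne_zero.mpr (Ne.symm hcX))
  rw [Real.log_div (mul_ne_zero n1 n2) n3, Real.log_mul n1 n2,
    Real.log_div (mul_ne_zero n4 n2) (mul_ne_zero n3 n5), Real.log_mul n4 n2, Real.log_mul n3 n5]
  ring

theorem t_JI : S_JI := by
  intro k C R b ρ δ hρ hδ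
  have h1 : ∀ i, _ := fun i => one (b.yb i) (b.xb i) (C.α i) R ρ b.pos hρ (C.ne i) (b.diffY i)
    (b.limY i) (b.limX i) (b.invY i)
  choose Ri hRi1 hRi2 using h1
  refine ⟨|ρ| + ∑ i, |Ri i|, fun m c hm hc hF i => ?_⟩
  have hs : Ri i ≤ |ρ| + ∑ i, |Ri i| := by
    have h2 : |Ri i| ≤ ∑ i, |Ri i| :=
      Finset.single_le_sum (f := fun i => |Ri i|) (fun _ _ => abs_nonneg _) (Finset.mem_univ i)
    linarith [le_abs_self (Ri i), abs_nonneg ρ]
  have hm1 : Ri i < ‖m‖ := hs.trans_lt hm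
  have hc1 : Ri i < ‖c‖ := hs.trans_lt hc
  have hmR : R < ‖m‖ := by linarith [hRi1 i]
  have hcR : R < ‖c‖ := by linarith [hRi1 i]
  have hcX : c ≠ b.xb i m := fun h => hF ((b.rootX m hmR c).mpr ⟨i, h⟩)
  have hYc : b.yb i c ≠ m := fun h => hF ((b.rootY c hcR m).mpr ⟨i, h.symm⟩)
  rw [hRi2 i m c hm1 hc1 hcX hYc]
  congr 3
  unfold Loop.int
  refine intervalIntegral.integral_congr fun t _ => ?_
  obtain ⟨hx, hy⟩ := hδ i
  have hxe : (δ i).x = ee ρ := by
    funext s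
    exact hx s
  have hd : deriv (δ i).x t = 2 * Real.pi * I * ee ρ t := by
    rw [hxe]
    have h3 : HasDerivAt (ee ρ) ((ρ : ℂ) * (exp (2 * Real.pi * t * I) * (2 * Real.pi * 1 * I))) t := by
      have h4 : HasDerivAt (fun s : ℝ => (2 * Real.pi * (s : ℂ) * I : ℂ)) (2 * Real.pi * 1 * I) t :=
        ((ofRealCLM.hasDerivAt (x := t)).const_mul (2 * Real.pi : ℂ)).mul_const I
      exact (h4.cexp).const_mul (ρ : ℂ)
    rw [h3.deriv, ee]
    ring
  symm
  show Pool.Agent.N65.GP.ker m c ((δ i).x t) ((δ i).y t) * deriv (δ i).x t = _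
  rw [hd, hy t, hxe]

end Pool.Agent.N564.GP
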